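import Pool.Agent.Lib_MP_89920a_ins.Weak
import Pool.Agent.Lib_MP_89920a_ins.Banach
import Pool.Agent.Lib_MP_89920a_ins.Approx

set_option autoImplicit false

namespace Pool.Agent.Results.MP_8e7252_gt.SplittableImages

open Pool.Agent.Lib_MP_89920a_ins
open scoped ZeroAtInfty

universe u

/-- `Y` is Eberlein compact: it is homeomorphic to a subset `K` of a real Banach space `E` which is
compact in the weak topology of `E`. -/
def IsEberlein (Y : Type u) [TopologicalSpace Y] : Prop :=
  ∃ (E : Type u) (_ : NormedAddCommGroup E) (_ : NormedSpace ℝ E) (_ : CompleteSpace E)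
    (K : Set (WeakSpace ℝ E)), IsCompact K ∧ Nonempty (Y ≃ₜ K)

/-- `X` is splittable over the class of Eberlein compact spaces: for every subset `A` of `X` there are an
Eberlein compact space `Y` and a continuous map `f` from `X` to `Y` with `f ⁻¹' (f '' A) = A`. -/
def SplittableOverEberlein (X : Type u) [TopologicalSpace X] : Prop :=
  ∀ A : Set X, ∃ (Y : Type u) (_ : TopologicalSpace Y) (f : X → Y),
    IsEberlein Y ∧ Continuous f ∧ f ⁻¹' (f '' A) = A

/-- The weak topology of a normed space is Hausdorff. -/
lemma weak_t2 (E : Type u) [NormedAddCommGroup E] [NormedSpace ℝ E] : T2Space (WeakSpace ℝ E) := by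
  refine (WeakBilin.isEmbedding (B := (topDualPairing ℝ E).flip) ?_).t2Space
  intro x y hxy
  by_contra hne
  obtain ⟨f, hf1, hf2⟩ := exists_dual_vector ℝ _ (norm_ne_zero_iff.2 (sub_ne_zero.2 hne))
  have h1 : f x = f y := LinearMap.congr_fun hxy f
  rw [map_sub, h1, sub_self] at hf2
  exact norm_ne_zero_iff.2 (sub_ne_zero.2 hne) (by simpa using hf2.symm)

/-- An Eberlein compact space is compact and Hausdorff. -/
lemma IsEberlein.compact {Y : Type u} [TopologicalSpace Y] (h : IsEberlein Y) :
    CompactSpace Y ∧ T2Space Y := by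
  obtain ⟨E, _, _, _, K, hK, ⟨φ⟩⟩ := h
  have := weak_t2 E
  have : CompactSpace K := isCompact_iff_compactSpace.1 hK
  exact ⟨φ.symm.compactSpace, φ.isEmbedding.t2Space⟩

/-- Amir and Lindenstrauss: an Eberlein compact space has a continuous injection into some `c₀(Γ)`. -/
lemma IsEberlein.c0 {Y : Type u} [TopologicalSpace Y] (h : IsEberlein Y) :
    ∃ (Γ : Type u) (g : Y → Γ → ℝ), EMap g ∧ Function.Injective g := by
  obtain ⟨_, _⟩ := h.compact
  obtain ⟨E, _, _, _, K, hK, ⟨φ⟩⟩ := h
  obtain ⟨Γ, g, h1, h2, h3, h4⟩ := AL.c0_of_weak (E := E)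
    (fun y : Y => ((φ y : K) : WeakSpace ℝ E))
    (continuous_subtype_val.comp φ.continuous) (Subtype.val_injective.comp φ.injective)
  exact ⟨Γ, g, ⟨h1, h3, h4⟩, h2⟩

/-- Conversely a compact space with a continuous injection into some `c₀(Γ)` is Eberlein compact. -/
lemma isEberlein_of_c0 {Y : Type u} [TopologicalSpace Y] [CompactSpace Y] {Γ : Type u}
    (g : Y → Γ → ℝ) (hg : EMap g) (hi : Function.Injective g) : IsEberlein Y := by
  let : TopologicalSpace Γ := ⊥
  have : DiscreteTopology Γ := ⟨rfl⟩
  obtain ⟨K, hK, hK2⟩ := exists_weaklyCompact hg hi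
  exact ⟨C₀(Γ, ℝ), inferInstance, inferInstance, inferInstance, K, hK, hK2⟩

/-- A compact Hausdorff space which is splittable over the Eberlein compact spaces has a continuous
injection into some `c₀(Γ)`. -/
lemma SplittableOverEberlein.c0 {X : Type u} [TopologicalSpace X] [CompactSpace X] [T2Space X]
    (h : SplittableOverEberlein X) :
    ∃ (Γ : Type u) (g : X → Γ → ℝ), EMap g ∧ Function.Injective g := by
  refine main fun A => ?_
  obtain ⟨Y, _, f, hY, hf, hfA⟩ := h A
  obtain ⟨Γ, g, hg, hi⟩ := hY.c0
  refine ⟨Γ, fun x => g (f x), ⟨hg.1.comp hf, fun x => hg.2.1 _, fun x => hg.2.2 _⟩, ?_⟩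
  intro x y hxy hx
  have h3 : y ∈ f ⁻¹' (f '' A) := ⟨x, hx, hi hxy⟩
  rwa [hfA] at h3

lemma IsEberlein.splittable {X : Type u} [TopologicalSpace X] (h : IsEberlein X) :
    SplittableOverEberlein X :=
  fun _ => ⟨X, inferInstance, id, h, continuous_id, by simp⟩

/-- Benyamini, Rudin and Wage: a Hausdorff continuous image of an Eberlein compact space is Eberlein
compact. -/
lemma brw {X Z : Type u} [TopologicalSpace X] [CompactSpace X] [TopologicalSpace Z] [T2Space Z]
    {Γ : Type u} (e : X → Γ → ℝ) (he : EMap e) (hinj : Function.Injective e)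
    (g : X → Z) (hg : Continuous g) (hs : Function.Surjective g) : IsEberlein Z := by
  have : CompactSpace Z := ⟨by
    rw [← hs.range_eq]
    exact isCompact_range hg⟩
  choose H hH1 hH2 hH3 using fun m : ℕ =>
    AL.exists_H e he.1 hinj he.2.2 g hg hs (1 / ((m : ℝ) + 1)) (by positivity)
  have hsys : AL.Sys (fun n m => H m n) :=
    ⟨fun m h hh => hH1 m h hh, fun n m => hH2 m n, fun n m => hH3 m n⟩
  obtain ⟨Γ', e', h1, h2, h3, h4⟩ := AL.eberlein_of_sys hsys
  exact isEberlein_of_c0 e' ⟨h1, h3, h4⟩ h2

/-- For a compact Hausdorff space `X` the following are equivalent: `X` is splittable over the Eberlein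
compact spaces; `X` is Eberlein compact; every Hausdorff continuous image of `X` is splittable over the
Eberlein compact spaces; every Hausdorff continuous image of `X` is Eberlein compact. The implication
from the first to the third statement is the positive answer to Q1. -/
theorem result (X : Type u) [TopologicalSpace X] [CompactSpace X] [T2Space X] :
    List.TFAE [
      SplittableOverEberlein X,
      IsEberlein X,
      ∀ (Z : Type u) [TopologicalSpace Z] [T2Space Z] (g : X → Z),
        Continuous g → Function.Surjective g → SplittableOverEberlein Z,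
      ∀ (Z : Type u) [TopologicalSpace Z] [T2Space Z] (g : X → Z),
        Continuous g → Function.Surjective g → IsEberlein Z] := by
  tfae_have 1 → 4 := fun h Z _ _ g hg hs => by
    obtain ⟨Γ, e, he, hi⟩ := h.c0
    exact brw e he hi g hg hs
  tfae_have 4 → 3 := fun h Z _ _ g hg hs => (h Z g hg hs).splittable
  tfae_have 3 → 1 := fun h => h X id continuous_id Function.surjective_id
  tfae_have 4 → 2 := fun h => h X id continuous_id Function.surjective_id
  tfae_have 2 → 1 := fun h => h.splittable
  tfae_finish

end Pool.Agent.Results.MP_8e7252_gt.SplittableImages
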